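import Pool.Agent.X132.FTm
import Pool.Agent.X132.FTn
import Pool.Agent.H756R3.J.Cont
import Pool.Agent.H105R3.JSanCurl
import Pool.Agent.H309R4.Jones.SanU
import Pool.Agent.H550R3.Jones.SanSkein699

/-!
# The complexified volume conjecture at odd roots of unity for the closed braids
`Δ^{2m} (s_1^A s_2^{-A})^n` with their braid axes

Let `A = 1` or `A = 2`, `n ≥ 1`, and let `m` be an arbitrary integer.  The link `L_{A,n,m}` is the
closure of the 3-braid `Δ^{2m} (s_1^A s_2^{-A})^n`, `Δ = s_1 s_2 s_1`, together with its braid axis,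
written as the closure of a braid on four strands: strand number `0` runs once around the other
three strands (this is the axis) and the last three strands carry the braid; `Δ^2` is a full twist.
The complement of `L_{A,n,m}` does not depend on `m` (a full twist along the disk which is bounded by
the axis is a homeomorphism); it is the `n`-fold cyclic covering of the complement of `L_{A,1,0}`,
which consists of four regular ideal tetrahedra for `A = 1` and of two regular ideal octahedra for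
`A = 2`.  The links themselves, and their invariants, depend on `m`.

The invariants are defined from the R-matrix of `U_q(sl_2)`, with `v = q^{1/2}` and
`{k} = v^k - v^{-k}`.  The `N`-coloured Jones polynomial `cjones N n w v` of the closure of a braid
word `w` on `n + 1` strands is the entry at the highest weight vector of the partial quantum trace
(over all strands but the first one) of the operator of `w` on the tensor power of the
`N`-dimensional irreducible representation.  The crossings carry the framing correction and the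
unknot has value `1`.  The Kashaev invariant is its value at `v = exp (π i / N)`, that is
`q = exp (2 π i / N)`.
-/

set_option autoImplicit false

namespace Pool.Agent.Results.MP_b30479_gt.AxisFullTwistsOdd

open Finset Filter Topology

/-- `{n} = v^n - v^{-n}` -/
noncomputable def br (v : ℂ) (n : ℤ) : ℂ := v ^ n - v ^ (-n)

/-- `{n}! = {1} {2} ⋯ {n}` -/
noncomputable def brf (v : ℂ) (n : ℕ) : ℂ := ∏ j ∈ range n, br v ((j : ℤ) + 1)

/-- The positive crossing: the R-matrix of `U_q(sl_2)` on `V_N ⊗ V_N`, `V_N` with basis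
`e_0, …, e_{N-1}`, times the framing factor `v^{-(N^2-1)/2}`; `crossP N v p q` is the coefficient
of `e_{p.1} ⊗ e_{p.2}` in the image of `e_{q.1} ⊗ e_{q.2}`:
`e_i ⊗ e_j ↦ ∑_n v^{-(N-1)(1+i+j) + 2(i-n)(j+n) + n(n-1)/2}
({j+n}! / ({j}! {n}!)) ∏_{t<n} {N-i+t} e_{j+n} ⊗ e_{i-n}`. -/
noncomputable def crossP (N : ℕ) (v : ℂ) : Matrix (Fin N × Fin N) (Fin N × Fin N) ℂ :=
  fun p q => if (p.1 : ℕ) + p.2 = q.1 + q.2 ∧ (q.2 : ℕ) ≤ p.1 then
    v ^ (-((N : ℤ) - 1) * (1 + (q.1 : ℕ) + (q.2 : ℕ)) + 2 * (p.1 : ℕ) * (p.2 : ℕ)) *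
      v ^ (((p.1 : ℕ) - q.2) * ((p.1 : ℕ) - q.2 - 1) / 2) *
      (brf v p.1 / (brf v q.2 * brf v ((p.1 : ℕ) - q.2))) *
      ∏ t ∈ range ((p.1 : ℕ) - q.2), br v ((N : ℤ) - (q.1 : ℕ) + t)
    else 0

/-- The negative crossing, inverse of `crossP N v`:
`e_i ⊗ e_j ↦ ∑_n (-1)^n v^{(N-1)(1+i+j) - 2ij - n(n-1)/2}
({i+n}! / ({i}! {n}!)) ∏_{t<n} {N-j+t} e_{j-n} ⊗ e_{i+n}`. -/
noncomputable def crossN (N : ℕ) (v : ℂ) : Matrix (Fin N × Fin N) (Fin N × Fin N) ℂ :=
  fun p q => if (p.1 : ℕ) + p.2 = q.1 + q.2 ∧ (q.1 : ℕ) ≤ p.2 then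
    (-1) ^ ((p.2 : ℕ) - q.1) *
      v ^ (((N : ℤ) - 1) * (1 + (q.1 : ℕ) + (q.2 : ℕ)) - 2 * (q.1 : ℕ) * (q.2 : ℕ)) /
      v ^ (((p.2 : ℕ) - q.1) * ((p.2 : ℕ) - q.1 - 1) / 2) *
      (brf v p.2 / (brf v q.1 * brf v ((p.2 : ℕ) - q.1))) *
      ∏ t ∈ range ((p.2 : ℕ) - q.1), br v ((N : ℤ) - (q.2 : ℕ) + t)
    else 0

/-- The braid generator `s_k` on `n` strands (it acts on the strands number `k` and `k + 1`,
counted from `0`) by the crossing matrix `A`. -/
def gen {ι : Type} [DecidableEq ι] (A : Matrix (ι × ι) (ι × ι) ℂ) (n k : ℕ) :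
    Matrix (Fin n → ι) (Fin n → ι) ℂ :=
  fun s t => if h : k + 1 < n then
    (if ∀ j : Fin n, (j : ℕ) ≠ k → (j : ℕ) ≠ k + 1 → s j = t j then
      A (s ⟨k, by omega⟩, s ⟨k + 1, h⟩) (t ⟨k, by omega⟩, t ⟨k + 1, h⟩) else 0)
    else (if s = t then 1 else 0)

/-- The operator of a braid word on `n` strands: the letter `(k, true)` is `s_k`, the letter
`(k, false)` is its inverse; `P` and `Q` are the matrices of the two crossings. -/
def rep {ι : Type} [Fintype ι] [DecidableEq ι] (P Q : Matrix (ι × ι) (ι × ι) ℂ) (n : ℕ)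
    (w : List (ℕ × Bool)) : Matrix (Fin n → ι) (Fin n → ι) ℂ :=
  (w.map fun g => gen (if g.2 then P else Q) n g.1).prod

/-- The partial trace over all strands but the first one, with weights `k`; `n + 1` strands. -/
def tail {ι : Type} [Fintype ι] (k : ι → ℂ) (n : ℕ)
    (A : Matrix (Fin (n + 1) → ι) (Fin (n + 1) → ι) ℂ) : Matrix ι ι ℂ :=
  fun i j => ∑ s : Fin n → ι, (∏ x, k (s x)) * A (Fin.cons i s) (Fin.cons j s)

/-- The `N`-coloured Jones polynomial (unknot `= 1`) of the closure of the braid word `w` on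
`n + 1` strands, at `q = v^2`: the entry at the highest weight vector `e_0` of the partial quantum
trace, with the weights `v^{N-1-2x}` of `K`. -/
noncomputable def cjones (N n : ℕ) (w : List (ℕ × Bool)) (v : ℂ) : ℂ :=
  if h : 0 < N then
    tail (fun x : Fin N => v ^ ((N : ℤ) - 1 - 2 * (x : ℕ))) n
      (rep (crossP N v) (crossN N v) (n + 1) w) ⟨0, h⟩ ⟨0, h⟩ else 0

/-- The braid axis: strand `0` runs once around the strands `1`, `2` and `3`. -/
def axisWord : List (ℕ × Bool) :=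
  [(0, true), (1, true), (2, true), (2, true), (1, true), (0, true)]

/-! ### The links -/

/-- `m` full twists: `(s_1 s_2 s_1 s_1 s_2 s_1)^m`, `m` an integer (for `m < 0` the word
`(s_1⁻¹ s_2⁻¹ s_1⁻¹ s_1⁻¹ s_2⁻¹ s_1⁻¹)^{-m}`); the generators are numbered `0` and `1`. -/
def fullTwists (m : ℤ) : List (ℕ × Bool) :=
  (List.replicate m.natAbs [(0, decide (0 ≤ m)), (1, decide (0 ≤ m)), (0, decide (0 ≤ m)),
    (0, decide (0 ≤ m)), (1, decide (0 ≤ m)), (0, decide (0 ≤ m))]).flatten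

/-- The word `(s_1^A s_2^{-A})^n`. -/
def blocks (A n : ℕ) : List (ℕ × Bool) :=
  (List.replicate n (List.replicate A (0, true) ++ List.replicate A (1, false))).flatten

/-- The word on four strands of the link `L_{A,n,m}`: the axis, and then the braid
`Δ^{2m} (s_1^A s_2^{-A})^n` on the strands `1`, `2` and `3`. -/
def linkWord (A n : ℕ) (m : ℤ) : List (ℕ × Bool) :=
  axisWord ++ (fullTwists m ++ blocks A n).map fun l => (l.1 + 1, l.2)

/-- `v_N = exp (π i / N)`, so that `q = v_N^2 = exp (2 π i / N)`. -/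
noncomputable def root (N : ℕ) : ℂ := Complex.exp (Real.pi * Complex.I / N)

/-- The Kashaev invariant of `L_{A,n,m}`. -/
noncomputable def kashaev (A n : ℕ) (m : ℤ) (N : ℕ) : ℂ := cjones N 3 (linkWord A n m) (root N)

/-- Lobachevsky's function `Λ(x) = -∫_0^x log |2 sin t| dt`. -/
noncomputable def Lob (x : ℝ) : ℝ := -∫ t in (0 : ℝ)..x, Real.log |2 * Real.sin t|

/-- The volume of the complement of `L_{A,n,m}`: `4 v_3 n = 8 n Λ(π/6)` for `A = 1` and
`2 v_8 n = 16 n Λ(π/4)` for `A = 2`. -/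
noncomputable def vol (A n : ℕ) : ℝ :=
  if A = 1 then n * (8 * Lob (Real.pi / 6)) else n * (16 * Lob (Real.pi / 4))

/-- `√3` for `A = 1` and `1` for `A = 2`. -/
noncomputable def shape (A : ℕ) : ℝ := if A = 1 then √3 else 1

/-- `(√7 + √3) / 2` for `A = 1` and `√5 + 2` for `A = 2`. -/
noncomputable def sigma (A : ℕ) : ℝ := if A = 1 then (√7 + √3) / 2 else √5 + 2

/-- The leading coefficient for `m = 0`, up to sign: `√(τ / (2 n)) / (σ^n - σ^{-n})`, with
`τ = shape A` and `σ = sigma A`. -/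
noncomputable def coef (A n : ℕ) : ℝ :=
  √(shape A / (2 * n)) / (sigma A ^ n - (sigma A)⁻¹ ^ n)

/-- The leading coefficient: `-c (1 - i τ m / n)^(-1/2)`, `c = coef A n`, `τ = shape A`. -/
noncomputable def lead (A n : ℕ) (m : ℤ) : ℂ :=
  -(coef A n : ℂ) * (1 - Complex.I * ((shape A * m / n : ℝ) : ℂ)) ^ (-(1 / 2) : ℂ)

/-- The filter of the odd integers `N → ∞`. -/
def oddTop : Filter ℕ := atTop ⊓ 𝓟 {N | Odd N}

/-- The growth `N^{3/2} exp (vol N / (2 π))`. -/
noncomputable def weight (A n N : ℕ) : ℝ :=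
  (N : ℝ) ^ (3 / 2 : ℝ) * Real.exp (vol A n / (2 * Real.pi) * N)

/-! ### Checks of the definitions (not part of the result) -/

/-- For `N = 2` the crossings satisfy the skein relation of the Jones polynomial. -/
theorem skein (v : ℂ) (hv : v ≠ 0) (h1 : br v 1 ≠ 0) :
    v ^ 2 • crossP 2 v - (v ^ 2)⁻¹ • crossN 2 v =
      (v - v⁻¹) • (1 : Matrix (Fin 2 × Fin 2) (Fin 2 × Fin 2) ℂ) :=
  Pool.Agent.H550R3.Jones.taskSanSkein v hv h1

/-- The two crossings are inverse to each other. -/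
theorem cross_inverse (N : ℕ) (v : ℂ) (hv : v ≠ 0)
    (h : ∀ k : ℕ, 0 < k → k < N → br v k ≠ 0) :
    crossP N v * crossN N v = 1 ∧ crossN N v * crossP N v = 1 :=
  Pool.Agent.H309R4.Jones.SanI.taskSanInv Pool.Agent.H345J.taskMod Pool.Agent.H345J.taskInv
    Pool.Agent.H559R3.J.taskCross N v ⟨hv, h⟩

/-- The Yang-Baxter equation, for every colour. -/
theorem yang_baxter (N : ℕ) (v : ℂ) (hv : v ≠ 0) (h : ∀ k : ℕ, 0 < k → k < N → br v k ≠ 0) :
    gen (crossP N v) 3 0 * gen (crossP N v) 3 1 * gen (crossP N v) 3 0 =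
      gen (crossP N v) 3 1 * gen (crossP N v) 3 0 * gen (crossP N v) 3 1 :=
  Pool.Agent.H927R2.J.SanYB.taskSanYB Pool.Agent.H345J.taskMod Pool.Agent.H345J.taskInt
    Pool.Agent.H345J.taskInv Pool.Agent.H667J.taskHex1 Pool.Agent.H22R3.J.taskNat
    Pool.Agent.H559R3.J.taskCross N v ⟨hv, h⟩

/-- Curls may be removed: the framing is normalised. -/
theorem curl (N : ℕ) (v : ℂ) (hv : v ≠ 0) (h : ∀ k : ℕ, 0 < k → k < N → br v k ≠ 0) :
    (fun i j => ∑ x : Fin N, v ^ ((N : ℤ) - 1 - 2 * (x : ℕ)) * crossP N v (i, x) (j, x)) =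
      (1 : Matrix (Fin N) (Fin N) ℂ) ∧
    (fun i j => ∑ x : Fin N, v ^ ((N : ℤ) - 1 - 2 * (x : ℕ)) * crossN N v (i, x) (j, x)) =
      (1 : Matrix (Fin N) (Fin N) ℂ) :=
  Pool.Agent.H105R3.JSan.taskSanCurl N v ⟨hv, h⟩

/-- The unknot has the value `1`. -/
theorem unknot (N : ℕ) (v : ℂ) (hN : 0 < N) (hv : v ≠ 0)
    (h : ∀ k : ℕ, 0 < k → k < N → br v k ≠ 0) :
    cjones N 0 [] v = 1 ∧ cjones N 1 [(0, true)] v = 1 ∧ cjones N 1 [(0, false)] v = 1 :=
  Pool.Agent.H309R4.Jones.SanU.taskSanUnknot N v hN ⟨hv, h⟩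

/-! ### Bridges -/

lemma cjones_eq (N n : ℕ) (w : List (ℕ × Bool)) (v : ℂ) :
    cjones N n w v = Pool.Agent.H550R3.Jones.cjones N n w v := rfl

lemma blocks_eq (e n : ℕ) : blocks (e + 1) n = Pool.Agent.Y472.bw (Pool.Agent.X132.FT.ex e n) := by
  rw [Pool.Agent.X132.FT.bw_eq]
  unfold blocks Pool.Agent.W715.VC.wpow Pool.Agent.W715.VC.dual
  simp only [List.map_replicate, List.reverse_replicate]
  rfl

lemma kashaev_eq (e n : ℕ) (m : ℤ) (N : ℕ) : kashaev (e + 1) n m N =
    Pool.Agent.H550R3.Jones.cjones N 3 (Pool.Agent.W715.VC.axisClosure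
      (Pool.Agent.Y472.ftw m ++ Pool.Agent.Y472.bw (Pool.Agent.X132.FT.ex e n)))
      (Pool.Agent.W715.VC.rt N) := by
  unfold kashaev linkWord
  rw [cjones_eq, blocks_eq]
  rfl

lemma shape_pos (A : ℕ) : 0 < shape A := by
  unfold shape
  split_ifs
  · positivity
  · norm_num

lemma sigma_gt (A : ℕ) : 1 < sigma A := by
  unfold sigma
  split_ifs
  · have h1 : (1 : ℝ) < √3 := (Real.lt_sqrt (by norm_num)).2 (by norm_num)
    have h2 : (1 : ℝ) < √7 := (Real.lt_sqrt (by norm_num)).2 (by norm_num)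
    linarith
  · have := Real.sqrt_nonneg 5
    linarith

lemma coef_pos (A : ℕ) {n : ℕ} (hn : 1 ≤ n) : 0 < coef A n :=
  Pool.Agent.X132.FT.cc_pos hn (shape_pos A) (sigma_gt A)

/-- the asymptotics, for all values of the parameters -/
lemma main {e : ℕ} {d : ℝ} (P : Pool.Agent.X132.FT.Par e d) (n : ℕ) [NeZero n]
    (h0 : Pool.Agent.X132.FT.KK e n 0 d = (coef (e + 1) n : ℂ))
    (h1 : 2 * n * Pool.Agent.X132.FT.he e d = vol (e + 1) n / (2 * Real.pi))
    (h2 : Real.pi / Pool.Agent.X132.FT.ct ((1 - d) / 2) = shape (e + 1)) (m : ℤ) :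
    Tendsto (fun N : ℕ => kashaev (e + 1) n m N / ((weight (e + 1) n N : ℝ) : ℂ)) atTop
        (𝓝 (lead (e + 1) n m)) := by
  have hm := Pool.Agent.X132.FT.cj_asym' P n h0 m
  rw [h1, h2] at hm
  simp only [← kashaev_eq] at hm
  exact hm

lemma asym (A n : ℕ) (hA : A = 1 ∨ A = 2) (hn : 1 ≤ n) (m : ℤ) :
    Tendsto (fun N : ℕ => kashaev A n m N / ((weight A n N : ℝ) : ℂ)) atTop
      (𝓝 (lead A n m)) := by
  have : NeZero n := ⟨by omega⟩
  rcases hA with rfl | rfl
  · refine main Pool.Agent.X132.FT.par0 n ?_ ?_ ?_ m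
    · rw [Pool.Agent.X132.FT.KK0]
      simp only [coef, zero_add, shape, sigma, if_true]
      rfl
    · rw [Pool.Agent.X132.FT.rate0]
      simp only [vol, zero_add, if_true]
      rfl
    · rw [Pool.Agent.X132.FT.shape0]
      simp [shape]
  · refine main Pool.Agent.X132.FT.par1 n ?_ ?_ ?_ m
    · rw [Pool.Agent.X132.FT.KK1]
      simp only [coef, Nat.reduceAdd, shape, sigma, OfNat.ofNat_ne_one, if_false]
      rfl
    · rw [Pool.Agent.X132.FT.rate1]
      simp only [vol, Nat.reduceAdd, OfNat.ofNat_ne_one, if_false]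
      rfl
    · rw [Pool.Agent.X132.FT.shape1]
      simp [shape]

lemma lead_ne (A : ℕ) {n : ℕ} (hn : 1 ≤ n) (m : ℤ) : lead A n m ≠ 0 :=
  Pool.Agent.X132.FT.cf_ne (n := n) (t := shape A) (m := m) (coef_pos A hn)

lemma cont (A n : ℕ) (m : ℤ) (N : ℕ) (_ : 1 ≤ N) :
    ContinuousAt (cjones N 3 (linkWord A n m)) (root N) := by
  have hv : root N = EvenVol.v0 N := rfl
  rw [hv]
  refine Pool.Agent.H756R3.J.taskCont N (EvenVol.v0 N) (Complex.exp_ne_zero _) ?_ _ _
  intro k hk0 hkN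
  exact Pool.Agent.W715.VC.br_ne (by omega) (by omega)

/-- **The complexified volume conjecture along the odd integers for the links `L_{A,n,m}`,
`A = 1, 2`, `n ≥ 1`, `m` any integer.**
(1) For every `N ≥ 1` the coloured Jones polynomial of `L_{A,n,m}` is continuous at `v_N`, so that
`a_N = kashaev A n m N` is its value at `q = e^(2 π i / N)` in the usual sense.
(2) For odd `N → ∞`: `a_N ≠ 0` for large `N`, and `π log (a_{N+2} / a_N) → vol + i CS` with `CS = 0`
(principal logarithm), as the question asks.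
(3) For odd `N → ∞`: `π log |a_{N+2} / a_N| → vol` and `2 π log |a_N| / N → vol`.
(4) For odd `N → ∞`: `a_N ∼ - c (1 - i τ m / n)^(-1/2) N^(3/2) exp (vol N / (2 π))`, with
`c = √(τ / (2 n)) / (σ^n - σ^{-n}) > 0`, where `τ = √3`, `σ = (√7 + √3) / 2`, `vol = 8 n Λ(π/6)` for
`A = 1` and `τ = 1`, `σ = √5 + 2`, `vol = 16 n Λ(π/4)` for `A = 2`. -/
theorem result (A n : ℕ) (hA : A = 1 ∨ A = 2) (hn : 1 ≤ n) (m : ℤ) :
    (∀ N : ℕ, 1 ≤ N → ContinuousAt (cjones N 3 (linkWord A n m)) (root N)) ∧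
    (∀ᶠ N in oddTop, kashaev A n m N ≠ 0) ∧
    Tendsto (fun N : ℕ => Real.pi * Complex.log (kashaev A n m (N + 2) / kashaev A n m N)) oddTop
      (𝓝 (vol A n + Complex.I * 0)) ∧
    Tendsto (fun N : ℕ => Real.pi * Real.log ‖kashaev A n m (N + 2) / kashaev A n m N‖) oddTop
      (𝓝 (vol A n)) ∧
    Tendsto (fun N : ℕ => 2 * Real.pi * (Real.log ‖kashaev A n m N‖ / N)) oddTop
      (𝓝 (vol A n)) ∧
    0 < coef A n ∧
    Tendsto (fun N : ℕ => kashaev A n m N / ((weight A n N : ℝ) : ℂ)) oddTop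
      (𝓝 (lead A n m)) := by
  have h := asym A n hA hn m
  have hK := lead_ne A hn m
  have hodd : oddTop ≤ atTop := inf_le_left
  have hpi : (Real.pi : ℂ) ≠ 0 := by exact_mod_cast Real.pi_ne_zero
  have e2 : 2 * Real.pi * (vol A n / (2 * Real.pi)) = vol A n := by
    have := Real.pi_ne_zero
    field_simp
  have h1 := Pool.Agent.X132.FT.log_lim hK h
  rw [e2] at h1
  have h2 := (Pool.Agent.X132.FT.log_ratio_k hK h 2).const_mul (Real.pi : ℂ)
  have e1 : (Real.pi : ℂ) * ((((2 : ℕ) : ℝ) * (vol A n / (2 * Real.pi)) : ℝ) : ℂ) =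
      vol A n + Complex.I * 0 := by
    push_cast
    field_simp
    ring
  rw [e1] at h2
  have h3 := (Complex.continuous_re.tendsto _).comp h2
  have e3 : ((vol A n : ℂ) + Complex.I * 0).re = vol A n := by simp
  rw [e3] at h3
  have h4 : Tendsto (fun N : ℕ => Real.pi * Real.log ‖kashaev A n m (N + 2) / kashaev A n m N‖)
      atTop (𝓝 (vol A n)) := by
    refine h3.congr fun N => ?_
    simp only [Function.comp]
    rw [Complex.re_ofReal_mul, Complex.log_re]
  exact ⟨fun N hN => cont A n m N hN, (Pool.Agent.X132.FT.ev_ne hK h).filter_mono hodd,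
    h2.mono_left hodd, h4.mono_left hodd, h1.mono_left hodd, coef_pos A hn, h.mono_left hodd⟩

end Pool.Agent.Results.MP_b30479_gt.AxisFullTwistsOdd
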