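import Pool.Agent.X132.AXg
import Pool.Agent.X132.AXh
import Pool.Agent.W719.BX.GeoN
import Pool.Agent.W715.VC.Axis
import Pool.Agent.W715.VC.Base
import Pool.Agent.W715.VC.Base2
import Pool.Agent.H756R3.J.Cont
import Pool.Agent.H105R3.JSanCurl
import Pool.Agent.H309R4.Jones.SanU
import Pool.Agent.H550R3.Jones.SanSkein699
import Pool.Agent.H112R4.VL.B
import Pool.Agent.H112R4.VL.D
import Pool.Agent.H8R3.VL.TaskC
import Pool.Agent.H180R3.EV.Quant

/-!
# The complexified volume conjecture at odd roots of unity for closed 3-braids `(u u*)^n` with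
their braid axes

Let `u` be a word in `s_1^{±1}`, `s_2^{±1}` (an arbitrary word), `Δ = s_1 s_2 s_1` and
`u* = Δ u^{-1} Δ^{-1}`, so that `u u* = [u, Δ]`.  `L(w)` is the closure of the 3-braid `w` together
with its braid axis, written as the closure of a braid on four strands: strand number `0` runs once
around the other three strands (this is the axis) and the last three strands carry the braid.  The
braid `u u*` is conjugate to its inverse by `Δ`; the links `L((u u*)^n)` are amphichiral.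

The invariants are defined from the R-matrix of `U_q(sl_2)`, with `v = q^{1/2}` and
`{k} = v^k - v^{-k}`.  The `N`-coloured Jones polynomial `cjones N n w v` of the closure of a braid
word `w` on `n + 1` strands is the entry at the highest weight vector of the partial quantum trace
(over all strands but the first one) of the operator of `w` on the tensor power of the
`N`-dimensional irreducible representation.  The crossings carry the framing correction and the
unknot has value `1`.  The Kashaev invariant is its value at `v = exp (π i / N)`, that is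
`q = exp (2 π i / N)`.
-/

set_option autoImplicit false

namespace Pool.Agent.Results.MP_b30479_gt.AxisPhasesOdd

open Finset Filter Topology

/-- `{n} = v^n - v^{-n}` -/
noncomputable def br (v : ℂ) (n : ℤ) : ℂ := v ^ n - v ^ (-n)

/-- `{n}! = {1} {2} ⋯ {n}` -/
noncomputable def brf (v : ℂ) (n : ℕ) : ℂ := ∏ j ∈ range n, br v ((j : ℤ) + 1)

/-- The positive crossing: the R-matrix of `U_q(sl_2)` on `V_N ⊗ V_N`, `V_N` with basis
`e_0, …, e_{N-1}`, times the framing factor `v^{-(N^2-1)/2}`; `crossP N v p q` is the coefficient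
of `e_{p.1} ⊗ e_{p.2}` in the image of `e_{q.1} ⊗ e_{q.2}`:
`e_i ⊗ e_j ↦ ∑_n v^{-(N-1)(1+i+j) + 2(i-n)(j+n) + n(n-1)/2}
({j+n}! / ({j}! {n}!)) ∏_{t<n} {N-i+t} e_{j+n} ⊗ e_{i-n}`. -/
noncomputable def crossP (N : ℕ) (v : ℂ) : Matrix (Fin N × Fin N) (Fin N × Fin N) ℂ :=
  fun p q => if (p.1 : ℕ) + p.2 = q.1 + q.2 ∧ (q.2 : ℕ) ≤ p.1 then
    v ^ (-((N : ℤ) - 1) * (1 + (q.1 : ℕ) + (q.2 : ℕ)) + 2 * (p.1 : ℕ) * (p.2 : ℕ)) *
      v ^ (((p.1 : ℕ) - q.2) * ((p.1 : ℕ) - q.2 - 1) / 2) *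
      (brf v p.1 / (brf v q.2 * brf v ((p.1 : ℕ) - q.2))) *
      ∏ t ∈ range ((p.1 : ℕ) - q.2), br v ((N : ℤ) - (q.1 : ℕ) + t)
    else 0

/-- The negative crossing, inverse of `crossP N v`:
`e_i ⊗ e_j ↦ ∑_n (-1)^n v^{(N-1)(1+i+j) - 2ij - n(n-1)/2}
({i+n}! / ({i}! {n}!)) ∏_{t<n} {N-j+t} e_{j-n} ⊗ e_{i+n}`. -/
noncomputable def crossN (N : ℕ) (v : ℂ) : Matrix (Fin N × Fin N) (Fin N × Fin N) ℂ :=
  fun p q => if (p.1 : ℕ) + p.2 = q.1 + q.2 ∧ (q.1 : ℕ) ≤ p.2 then
    (-1) ^ ((p.2 : ℕ) - q.1) *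
      v ^ (((N : ℤ) - 1) * (1 + (q.1 : ℕ) + (q.2 : ℕ)) - 2 * (q.1 : ℕ) * (q.2 : ℕ)) /
      v ^ (((p.2 : ℕ) - q.1) * ((p.2 : ℕ) - q.1 - 1) / 2) *
      (brf v p.2 / (brf v q.1 * brf v ((p.2 : ℕ) - q.1))) *
      ∏ t ∈ range ((p.2 : ℕ) - q.1), br v ((N : ℤ) - (q.2 : ℕ) + t)
    else 0

/-- The braid generator `s_k` on `n` strands (it acts on the strands number `k` and `k + 1`,
counted from `0`) by the crossing matrix `A`. -/
def gen {ι : Type} [DecidableEq ι] (A : Matrix (ι × ι) (ι × ι) ℂ) (n k : ℕ) :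
    Matrix (Fin n → ι) (Fin n → ι) ℂ :=
  fun s t => if h : k + 1 < n then
    (if ∀ j : Fin n, (j : ℕ) ≠ k → (j : ℕ) ≠ k + 1 → s j = t j then
      A (s ⟨k, by omega⟩, s ⟨k + 1, h⟩) (t ⟨k, by omega⟩, t ⟨k + 1, h⟩) else 0)
    else (if s = t then 1 else 0)

/-- The operator of a braid word on `n` strands: the letter `(k, true)` is `s_k`, the letter
`(k, false)` is its inverse; `P` and `Q` are the matrices of the two crossings. -/
def rep {ι : Type} [Fintype ι] [DecidableEq ι] (P Q : Matrix (ι × ι) (ι × ι) ℂ) (n : ℕ)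
    (w : List (ℕ × Bool)) : Matrix (Fin n → ι) (Fin n → ι) ℂ :=
  (w.map fun g => gen (if g.2 then P else Q) n g.1).prod

/-- The partial trace over all strands but the first one, with weights `k`; `n + 1` strands. -/
def tail {ι : Type} [Fintype ι] (k : ι → ℂ) (n : ℕ)
    (A : Matrix (Fin (n + 1) → ι) (Fin (n + 1) → ι) ℂ) : Matrix ι ι ℂ :=
  fun i j => ∑ s : Fin n → ι, (∏ x, k (s x)) * A (Fin.cons i s) (Fin.cons j s)

/-- The `N`-coloured Jones polynomial (unknot `= 1`) of the closure of the braid word `w` on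
`n + 1` strands, at `q = v^2`: the entry at the highest weight vector `e_0` of the partial quantum
trace, with the weights `v^{N-1-2x}` of `K`. -/
noncomputable def cjones (N n : ℕ) (w : List (ℕ × Bool)) (v : ℂ) : ℂ :=
  if h : 0 < N then
    tail (fun x : Fin N => v ^ ((N : ℤ) - 1 - 2 * (x : ℕ))) n
      (rep (crossP N v) (crossN N v) (n + 1) w) ⟨0, h⟩ ⟨0, h⟩ else 0

/-- The braid axis: strand `0` runs once around the strands `1`, `2` and `3`. -/
def axisWord : List (ℕ × Bool) :=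
  [(0, true), (1, true), (2, true), (2, true), (1, true), (0, true)]

/-! ### The links -/

/-- `w` is a word in the letters `s_1^{±1}`, `s_2^{±1}`: the letters are numbered `0` and `1`. -/
def IsWord (w : List (ℕ × Bool)) : Prop := ∀ l ∈ w, l.1 < 2

/-- The word on four strands of the link `L(w)`: the axis, and then the braid `w` on the strands
`1`, `2` and `3`. -/
def linkWord (w : List (ℕ × Bool)) : List (ℕ × Bool) :=
  axisWord ++ w.map fun l => (l.1 + 1, l.2)

/-- The word `w*`: the letters in reversed order, `s_1` is replaced by `s_2^{-1}`, `s_2` by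
`s_1^{-1}` (this is `Δ w^{-1} Δ^{-1}`, `Δ = s_1 s_2 s_1`). -/
def star (w : List (ℕ × Bool)) : List (ℕ × Bool) := (w.map fun l => (1 - l.1, !l.2)).reverse

/-- The word `(u u*)^n`. -/
def power (u : List (ℕ × Bool)) (n : ℕ) : List (ℕ × Bool) :=
  (List.replicate n (u ++ star u)).flatten

/-- A twist region: the word `s_{g+1}^a`, `a` an integer. -/
def region (g : ℕ) (a : ℤ) : List (ℕ × Bool) := List.replicate a.natAbs (g, decide (0 ≤ a))

/-- The word `(s_1^A s_2^{-A})^n`. -/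
def blocks (A n : ℕ) : List (ℕ × Bool) :=
  (List.replicate n (region 0 A ++ region 1 (-A))).flatten

/-- `v_N = exp (π i / N)`, so that `q = v_N^2 = exp (2 π i / N)`. -/
noncomputable def root (N : ℕ) : ℂ := Complex.exp (Real.pi * Complex.I / N)

/-- The Kashaev invariant of `L(w)`. -/
noncomputable def kashaev (w : List (ℕ × Bool)) (N : ℕ) : ℂ := cjones N 3 (linkWord w) (root N)

/-- The filter of the odd integers `N → ∞`. -/
def oddTop : Filter ℕ := atTop ⊓ 𝓟 {N | Odd N}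

/-- Along the odd integers: `a_N ≠ 0` for large `N`, `a_N / |a_N| → -1`, the arguments of the quotients
`a_{N+2} / a_N` tend to `0`, and there are logarithms `l_N` of `a_N` with
`2 π l_N / N → V + i CS`, `CS = 0`, and `Im (l_{N+2} - l_N) → 0`. -/
def ComplexLimit (a : ℕ → ℂ) (V : ℝ) : Prop :=
  (∀ᶠ N in oddTop, a N ≠ 0) ∧
  Tendsto (fun N : ℕ => a N / (‖a N‖ : ℂ)) oddTop (𝓝 (-1)) ∧
  Tendsto (fun N : ℕ => Complex.arg (a (N + 2) / a N)) oddTop (𝓝 0) ∧
  ∃ l : ℕ → ℂ, (∀ᶠ N in oddTop, Complex.exp (l N) = a N) ∧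
    Tendsto (fun N : ℕ => 2 * Real.pi / N * l N) oddTop (𝓝 (V + Complex.I * 0)) ∧
    Tendsto (fun N : ℕ => (l (N + 2) - l N).im) oddTop (𝓝 0)

/-- Lobachevsky's function `Λ(x) = -∫_0^x log |2 sin t| dt`. -/
noncomputable def Lob (x : ℝ) : ℝ := -∫ t in (0 : ℝ)..x, Real.log |2 * Real.sin t|

/-- First dihedral angle of the tetrahedra of layer `i` (hinge layers: `A` divides `i`). -/
noncomputable def angX (A : ℕ) (w : ℤ → ℝ) (i : ℤ) : ℝ :=
  if (A : ℤ) ∣ i then (w (i - 1) + w i - w (i + 1)) / 2 else (w (i - 1) + w (i + 1)) / 2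

/-- Second dihedral angle of the tetrahedra of layer `i`. -/
noncomputable def angY (A : ℕ) (w : ℤ → ℝ) (i : ℤ) : ℝ :=
  if (A : ℤ) ∣ i then (-w (i - 1) + w i + w (i + 1)) / 2 else (2 * w i - w (i - 1) - w (i + 1)) / 2

/-- Third dihedral angle of the tetrahedra of layer `i`. -/
noncomputable def angZ (w : ℤ → ℝ) (i : ℤ) : ℝ := Real.pi - w i

/-- Angle structures on the layered triangulation of the complement of `L_{A,n}`: functions on the
layers (with period `2 A n`) with positive dihedral angles. -/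
def IsAngle (A n : ℕ) (w : ℤ → ℝ) : Prop :=
  (∀ i, w (i + 2 * A * n) = w i) ∧ ∀ i, 0 < angX A w i ∧ 0 < angY A w i ∧ 0 < angZ w i

/-- The volume of an angle structure: two ideal tetrahedra in each of the `2 A n` layers, each of
volume `Λ(x) + Λ(y) + Λ(z)`. -/
noncomputable def vol (A n : ℕ) (w : ℤ → ℝ) : ℝ :=
  ∑ i ∈ range (2 * A * n), 2 * (Lob (angX A w i) + Lob (angY A w i) + Lob (angZ w i))

/-! ### Checks of the definitions (not part of the result) -/

/-- For `N = 2` the crossings satisfy the skein relation of the Jones polynomial. -/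
theorem skein (v : ℂ) (hv : v ≠ 0) (h1 : br v 1 ≠ 0) :
    v ^ 2 • crossP 2 v - (v ^ 2)⁻¹ • crossN 2 v =
      (v - v⁻¹) • (1 : Matrix (Fin 2 × Fin 2) (Fin 2 × Fin 2) ℂ) :=
  Pool.Agent.H550R3.Jones.taskSanSkein v hv h1

/-- The two crossings are inverse to each other. -/
theorem cross_inverse (N : ℕ) (v : ℂ) (hv : v ≠ 0)
    (h : ∀ k : ℕ, 0 < k → k < N → br v k ≠ 0) :
    crossP N v * crossN N v = 1 ∧ crossN N v * crossP N v = 1 :=
  Pool.Agent.H309R4.Jones.SanI.taskSanInv Pool.Agent.H345J.taskMod Pool.Agent.H345J.taskInv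
    Pool.Agent.H559R3.J.taskCross N v ⟨hv, h⟩

/-- The Yang-Baxter equation, for every colour. -/
theorem yang_baxter (N : ℕ) (v : ℂ) (hv : v ≠ 0) (h : ∀ k : ℕ, 0 < k → k < N → br v k ≠ 0) :
    gen (crossP N v) 3 0 * gen (crossP N v) 3 1 * gen (crossP N v) 3 0 =
      gen (crossP N v) 3 1 * gen (crossP N v) 3 0 * gen (crossP N v) 3 1 :=
  Pool.Agent.H927R2.J.SanYB.taskSanYB Pool.Agent.H345J.taskMod Pool.Agent.H345J.taskInt
    Pool.Agent.H345J.taskInv Pool.Agent.H667J.taskHex1 Pool.Agent.H22R3.J.taskNat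
    Pool.Agent.H559R3.J.taskCross N v ⟨hv, h⟩

/-- Curls may be removed: the framing is normalised. -/
theorem curl (N : ℕ) (v : ℂ) (hv : v ≠ 0) (h : ∀ k : ℕ, 0 < k → k < N → br v k ≠ 0) :
    (fun i j => ∑ x : Fin N, v ^ ((N : ℤ) - 1 - 2 * (x : ℕ)) * crossP N v (i, x) (j, x)) =
      (1 : Matrix (Fin N) (Fin N) ℂ) ∧
    (fun i j => ∑ x : Fin N, v ^ ((N : ℤ) - 1 - 2 * (x : ℕ)) * crossN N v (i, x) (j, x)) =
      (1 : Matrix (Fin N) (Fin N) ℂ) :=
  Pool.Agent.H105R3.JSan.taskSanCurl N v ⟨hv, h⟩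

/-- The unknot has the value `1`. -/
theorem unknot (N : ℕ) (v : ℂ) (hN : 0 < N) (hv : v ≠ 0)
    (h : ∀ k : ℕ, 0 < k → k < N → br v k ≠ 0) :
    cjones N 0 [] v = 1 ∧ cjones N 1 [(0, true)] v = 1 ∧ cjones N 1 [(0, false)] v = 1 :=
  Pool.Agent.H309R4.Jones.SanU.taskSanUnknot N v hN ⟨hv, h⟩

/-- Example: the star of `s_1^2 s_2` is `s_1^{-1} s_2^{-2}`. -/
theorem star_example : star [(0, true), (0, true), (1, true)] =
    [(0, false), (1, false), (1, false)] := by decide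

/-! ### Bridges -/

lemma cjones_eq (N n : ℕ) (w : List (ℕ × Bool)) (v : ℂ) :
    cjones N n w v = Pool.Agent.H550R3.Jones.cjones N n w v := rfl

lemma kashaev_norm {N : ℕ} (hN : 0 < N) (w : List (ℕ × Bool)) : ‖kashaev w N‖ =
    ‖(Pool.Agent.W715.VC.rep3 N w).trace‖ := by
  unfold kashaev
  rw [cjones_eq]
  exact Pool.Agent.W715.VC.norm_cjones_axis hN w

lemma region_eq (g : ℕ) (a : ℤ) : region g a = Pool.Agent.X132.AX.reg g a := rfl

lemma star_eq (w : List (ℕ × Bool)) : star w = Pool.Agent.W715.VC.dual w := rfl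

lemma blocks_eq (A n : ℕ) (hA : 1 ≤ A) :
    blocks A n = Pool.Agent.W715.VC.wpow (Pool.Agent.X132.AX.bl A true) n := by
  unfold blocks Pool.Agent.W715.VC.wpow Pool.Agent.X132.AX.bl region
  have h1 : decide ((0 : ℤ) ≤ (A : ℤ)) = true := by simp
  have h2 : decide ((0 : ℤ) ≤ -(A : ℤ)) = false := by simp; omega
  rw [h1, h2, Int.natAbs_neg, Int.natAbs_natCast]
  rfl

lemma power_eq (u : List (ℕ × Bool)) (n : ℕ) :
    power u n = Pool.Agent.W715.VC.wpow (u ++ Pool.Agent.W715.VC.dual u) n := rfl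

lemma power_one (u : List (ℕ × Bool)) : power u 1 = u ++ star u := by simp [power]

lemma kashaev_power {N : ℕ} (hN : 0 < N) (u : List (ℕ × Bool)) (n : ℕ) : ‖kashaev (power u n) N‖ =
    ‖(Pool.Agent.W715.VC.rep3 N (Pool.Agent.W715.VC.wpow
      (u ++ Pool.Agent.W715.VC.dual u) n)).trace‖ := by
  rw [kashaev_norm hN, power_eq]

lemma lim_iff (u : List (ℕ × Bool)) (n : ℕ) (V : ℝ) :
    Tendsto (fun N : ℕ => 2 * Real.pi * (Real.log ‖kashaev (power u n) N‖ / N)) atTop (𝓝 V) ↔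
      Tendsto (fun N : ℕ => 2 * Real.pi / N * Real.log ‖(Pool.Agent.W715.VC.rep3 N
        (Pool.Agent.W715.VC.wpow (u ++ Pool.Agent.W715.VC.dual u) n)).trace‖) atTop (𝓝 V) := by
  refine tendsto_congr' ?_
  filter_upwards [eventually_gt_atTop 0] with N hN
  rw [kashaev_power hN]
  ring

/-- the invariants of `L((u u*)^n)` are almost real -/
lemma near (u : List (ℕ × Bool)) (hu : IsWord u) (n : ℕ) (hn : 1 ≤ n) (N : ℕ) (hN : 1 ≤ N) :
    ‖kashaev (power u n) N + Complex.exp (3 * Real.pi * Complex.I / N) *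
      (‖kashaev (power u n) N‖ : ℂ)‖ ≤ 4 * (N : ℝ) ^ 3 :=
  Pool.Agent.X132.AX.near_real (by omega) hu (by omega) _ rfl

lemma cont (w : List (ℕ × Bool)) (N : ℕ) (_ : 1 ≤ N) :
    ContinuousAt (cjones N 3 (linkWord w)) (root N) := by
  have hv : root N = EvenVol.v0 N := rfl
  rw [hv]
  refine Pool.Agent.H756R3.J.taskCont N (EvenVol.v0 N) (Complex.exp_ne_zero _) ?_ _ _
  intro k hk0 hkN
  exact Pool.Agent.W715.VC.br_ne (by omega) (by omega)

lemma blocks_power (A n : ℕ) (hA : 1 ≤ A) :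
    blocks A n = power (Pool.Agent.W719.BX.uA A) n := by
  rw [blocks_eq A n hA, Pool.Agent.X132.AX.bl_eq]
  rfl

/-- the growth of the invariants of `L((s_1^A s_2^{-A})^n)` -/
lemma growthU : ∃ U : ℕ → ℝ, U 1 = 8 * Lob (Real.pi / 6) ∧ U 2 = 16 * Lob (Real.pi / 4) ∧
    (∀ A : ℕ, 4 ≤ A → IsGreatest {W : ℝ | ∃ w : ℤ → ℝ, IsAngle A 1 w ∧ vol A 1 w = W} (U A)) ∧
    (∀ A : ℕ, 1 ≤ A → A ≠ 3 → 0 < U A) ∧
    ∀ A n : ℕ, 1 ≤ A → A ≠ 3 → 1 ≤ n →
      Tendsto (fun N : ℕ => 2 * Real.pi * (Real.log ‖kashaev (blocks A n) N‖ / N)) atTop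
        (𝓝 (n * U A)) := by
  obtain ⟨U, h0, h1, h2, h3, h4, h5, h6, h7⟩ := Pool.Agent.X132.AX.base
  refine ⟨U, h1, h2, h4, fun A hA hA3 => ?_, fun A n hA hA3 hn => ?_⟩
  · have hp1 := Pool.Agent.X132.AX.lob6_pos
    have hp2 := Pool.Agent.X132.AX.lob4_pos
    by_cases h44 : 4 ≤ A
    · obtain ⟨V, k1, k2, -⟩ := Pool.Agent.W719.BX.mainN h44 (le_refl 1)
      have hVU : V = U A := IsGreatest.unique k1 (h4 A h44)
      rw [← hVU]
      push_cast at k2
      linarith
    · have : A = 1 ∨ A = 2 := by omega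
      rcases this with rfl | rfl
      · rw [h1]; linarith
      · rw [h2]; linarith
  · refine (h7 A n hA hA3 hn).congr' ?_
    filter_upwards [eventually_gt_atTop 0] with N hN
    rw [kashaev_norm hN, blocks_eq A n hA]
    ring

lemma limit_of {u : List (ℕ × Bool)} (hu : IsWord u) {n : ℕ} (hn : 1 ≤ n) {V : ℝ} (hV : 0 < V)
    (h : Tendsto (fun N : ℕ => 2 * Real.pi * (Real.log ‖kashaev (power u n) N‖ / N)) oddTop
      (𝓝 V)) : ComplexLimit (kashaev (power u n)) V := by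
  obtain ⟨h1, h2, h3, h4, h5, h6⟩ := Pool.Agent.X132.AX.main_phase (k := 2) (F := oddTop) inf_le_left
    (Pool.Agent.X132.AX.shift_two fun N hN => hN.add_even even_two) hV (near u hu n hn) h
  refine ⟨h1, h2, h3, _, h4, ?_, h6⟩
  rw [mul_zero, add_zero]
  exact h5

/-- **The phases along the odd integers for the links `L((u u*)^n)`.**
(1) For every `N ≥ 1` and every word `w` the coloured Jones polynomial of `L(w)` is continuous at
`v_N`, so that `kashaev w N = J_N(L(w); e^(2 π i / N))` in the usual sense.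
(2) For all words `u`, all `n ≥ 1` and all `N ≥ 1`:
`|a_N + e^(3 π i / N) |a_N|| ≤ 4 N³`, `a_N = J_N(L((u u*)^n); e^(2 π i / N))`.
(3) If `2 π log |a_N| / N → V > 0` for odd `N → ∞`, then for odd `N → ∞` `a_N ≠ 0`,
`π arg (a_{N+2} / a_N) → 0`, the imaginary part of the statement with `CS = 0`, and with a coherent
branch of the logarithm `2 π log a_N / N → V + i CS`.
(4) This holds for `(s_1^A s_2^{-A})^n`, `A ≥ 1`, `A ≠ 3`, `n ≥ 1`, with `V = n U_A`: `U_1 = 8 Λ(π/6)`,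
`U_2 = 16 Λ(π/4)` and, for `A ≥ 4`, `U_A` the maximum of the volume of the angle structures on the
layered triangulation of the complement of `L(s_1^A s_2^{-A})`. -/
theorem result :
    (∀ (w : List (ℕ × Bool)) (N : ℕ), 1 ≤ N → ContinuousAt (cjones N 3 (linkWord w)) (root N)) ∧
    (∀ u : List (ℕ × Bool), IsWord u → ∀ n : ℕ, 1 ≤ n → ∀ N : ℕ, 1 ≤ N →
      ‖kashaev (power u n) N + Complex.exp (3 * Real.pi * Complex.I / N) *
        (‖kashaev (power u n) N‖ : ℂ)‖ ≤ 4 * (N : ℝ) ^ 3) ∧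
    (∀ u : List (ℕ × Bool), IsWord u → ∀ n : ℕ, 1 ≤ n → ∀ V : ℝ, 0 < V →
      Tendsto (fun N : ℕ => 2 * Real.pi * (Real.log ‖kashaev (power u n) N‖ / N)) oddTop (𝓝 V) →
      ComplexLimit (kashaev (power u n)) V) ∧
    ∃ U : ℕ → ℝ, U 1 = 8 * Lob (Real.pi / 6) ∧ U 2 = 16 * Lob (Real.pi / 4) ∧
      (∀ A : ℕ, 4 ≤ A → IsGreatest {W : ℝ | ∃ w : ℤ → ℝ, IsAngle A 1 w ∧ vol A 1 w = W} (U A)) ∧
      ∀ A n : ℕ, 1 ≤ A → A ≠ 3 → 1 ≤ n →
        Tendsto (fun N : ℕ => 2 * Real.pi * (Real.log ‖kashaev (blocks A n) N‖ / N)) oddTop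
          (𝓝 (n * U A)) ∧ ComplexLimit (kashaev (blocks A n)) (n * U A) := by
  refine ⟨cont, near, fun u hu n hn V hV h => limit_of hu hn hV h, ?_⟩
  obtain ⟨U, h1, h2, h4, hpos, hg⟩ := growthU
  refine ⟨U, h1, h2, h4, fun A n hA hA3 hn => ⟨(hg A n hA hA3 hn).mono_left inf_le_left, ?_⟩⟩
  have hn' : (0 : ℝ) < n := by exact_mod_cast hn
  have h3 := (hg A n hA hA3 hn).mono_left (inf_le_left : oddTop ≤ atTop)
  rw [blocks_power A n hA] at h3 ⊢
  exact limit_of (Pool.Agent.X132.AX.uA_lt A) hn (mul_pos hn' (hpos A hA hA3)) h3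

end Pool.Agent.Results.MP_b30479_gt.AxisPhasesOdd
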